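import Mathlib

set_option autoImplicit false

namespace Pool.Agent.Results.MP_cb5b52_nt.No

open Finset Filter Topology PowerSeries

/-- `p A n k` is the coefficient of `x ^ n` in `∏_{i < k} (1 + x ^ A i + x ^ (2 * A i) + ⋯)`. -/
noncomputable def p (A : ℕ → ℕ) (n k : ℕ) : ℕ :=
  coeff n (∏ i ∈ range k, (mk fun m => if A i ∣ m then 1 else 0 : ℕ⟦X⟧))

noncomputable def G (a : ℕ) : (ZMod 2)⟦X⟧ := mk fun m => if a ∣ m then 1 else 0

lemma G4 (a : ℕ) (ha : a ≠ 0) : G a ^ 4 = expand 4 (by norm_num) (G a) := by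
  have e : G a = expand a ha (mk 1) := by
    ext n; rw [coeff_expand, G, coeff_mk, coeff_mk]; rfl
  have h1 : G a * (1 - X ^ a) = 1 := by
    rw [e, ← expand_X a ha, ← map_one (expand a ha), ← map_sub, ← map_mul,
      mk_one_mul_one_sub_eq_one]
  have h2 := congrArg (expand 4 (by norm_num)) h1
  rw [map_mul, map_sub, map_one, map_pow, expand_X, ← pow_mul, mul_comm 4 a, pow_mul] at h2
  have z : (2 : (ZMod 2)⟦X⟧) = 0 := by
    rw [show (2 : (ZMod 2)⟦X⟧) = C (2 : ZMod 2) from (map_ofNat C 2).symm,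
      show (2 : ZMod 2) = 0 from rfl, map_zero]
  generalize expand 4 (by norm_num) (G a) = E at *
  generalize (X : (ZMod 2)⟦X⟧) ^ a = y at *
  generalize G a = F at *
  have h3 : 1 - y ^ 4 = (1 - y) ^ 4 := by
    linear_combination (2 * y - 3 * y ^ 2 + 2 * y ^ 3 - y ^ 4) * z
  rw [h3] at h2
  calc F ^ 4 = F ^ 4 * (E * (1 - y) ^ 4) := by rw [h2, mul_one]
    _ = E * (F * (1 - y)) ^ 4 := by ring
    _ = E := by rw [h1, one_pow, mul_one]

lemma prodG (j : ℕ) : ∏ i ∈ range (4 * j), G (i / 4 + 1) =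
    expand 4 (by norm_num) (∏ i ∈ range j, G (i + 1)) := by
  induction j with
  | zero => simp
  | succ j ih =>
    rw [show 4 * (j + 1) = 4 * j + 1 + 1 + 1 + 1 by ring, prod_range_succ, prod_range_succ,
      prod_range_succ, prod_range_succ, prod_range_succ, ih, map_mul, ← G4 _ (by omega),
      show 4 * j / 4 = j by omega, show (4 * j + 1) / 4 = j by omega,
      show (4 * j + 1 + 1) / 4 = j by omega, show (4 * j + 1 + 1 + 1) / 4 = j by omega]
    ring

lemma dv (j n : ℕ) (h : Odd (p (fun i => i / 4 + 1) n (4 * j))) : 4 ∣ n := by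
  by_contra c
  have e : ((p (fun i => i / 4 + 1) n (4 * j) : ℕ) : ZMod 2) =
      coeff n (∏ i ∈ range (4 * j), G (i / 4 + 1)) := by
    rw [p, ← eq_natCast (Nat.castRingHom (ZMod 2)), ← coeff_map, map_prod]
    congr 1
    refine prod_congr rfl fun i _ => ?_
    ext m; simp [G]
  rw [prodG, coeff_expand_of_not_dvd _ _ _ c, ZMod.natCast_eq_zero_iff_even] at e
  exact (Nat.not_even_iff_odd.2 h) e

theorem result : ∃ A : ℕ → ℕ, (∀ i, 0 < A i) ∧ (∀ d, (∀ i, d ∣ A i) → d = 1) ∧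
    {q | q.Prime ∧ ∃ i, q ∣ A i}.Infinite ∧
    ∀ δ : ℕ → ℝ, (∀ k, Tendsto (fun N : ℕ => (#{n ∈ range (N + 1) | Odd (p A n k)} : ℝ) / N)
      atTop (𝓝 (δ k))) → ¬ Tendsto δ atTop (𝓝 (1 / 2)) := by
  refine ⟨fun i => i / 4 + 1, fun i => Nat.succ_pos _, fun d h => by simpa using h 0,
    Nat.infinite_setOfPred_prime.mono fun q hq => ⟨hq, 4 * (q - 1), ?_⟩, fun δ h h2 => ?_⟩
  · have := Nat.Prime.two_le hq
    exact Dvd.intro 1 (by beta_reduce; omega)
  · obtain ⟨j, hj⟩ := eventually_atTop.1 (h2.eventually (lt_mem_nhds (by norm_num : (1 / 3 : ℝ) < 1 / 2)))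
    refine (hj (4 * j) (by omega)).not_ge (le_of_tendsto (h (4 * j)) ?_)
    filter_upwards [eventually_ge_atTop 12] with N hN
    have : #{n ∈ range (N + 1) | Odd (p (fun i => i / 4 + 1) n (4 * j))} ≤ N / 4 + 1 := by
      refine le_trans (card_le_card (t := (range (N / 4 + 1)).image (4 * ·)) fun n hn => ?_)
        (card_image_le.trans (card_range _).le)
      obtain ⟨h1, h3⟩ := mem_filter.1 hn
      obtain ⟨m, rfl⟩ := dv j n h3
      exact mem_image.2 ⟨m, mem_range.2 (by have := mem_range.1 h1; omega), rfl⟩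
    rw [div_le_div_iff₀ (by exact_mod_cast (by omega)) (by norm_num), one_mul]
    exact_mod_cast (by omega)

end Pool.Agent.Results.MP_cb5b52_nt.No
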